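import Mathlib

/-!
# An equistable graph which is not weakly CIS

`G` is the complement of the line graph of a triangle-free graph `H` with 9 vertices and 14 edges,
all of whose vertices have degree at least three.  The maximal stable sets of `G` are the stars of
`H` and its cliques are the matchings of `H`.  Explicit weights show that `G` is equistable, and as
`H` has an odd number of vertices it has no perfect matching, so `G` is not weakly CIS.
-/

set_option autoImplicit false

namespace Pool.Agent.Results.MP_59918e_co.EquistableNotWeaklyCIS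

/-- `S` is a maximal stable set of `G`. -/
def IsMaxStable {V : Type} (G : SimpleGraph V) (S : Finset V) : Prop :=
  Maximal (fun T : Finset V => G.IsIndepSet T) S

/-- `C` is a maximal clique of `G`. -/
def IsMaxClique {V : Type} (G : SimpleGraph V) (C : Finset V) : Prop :=
  Maximal (fun T : Finset V => G.IsClique T) C

/-- `G` is equistable: some nonnegative weights give total weight `1` exactly to the maximal stable
sets. -/
def Equistable {V : Type} (G : SimpleGraph V) : Prop :=
  ∃ φ : V → ℝ, (∀ v, 0 ≤ φ v) ∧ ∀ S : Finset V, IsMaxStable G S ↔ ∑ v ∈ S, φ v = 1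

/-- `G` is weakly CIS: there are an edge covering family `A` of maximal cliques and a non-edge
covering family `B` of maximal stable sets which are cross-intersecting. -/
def WeaklyCIS {V : Type} (G : SimpleGraph V) : Prop :=
  ∃ A B : Set (Finset V), (∀ C ∈ A, IsMaxClique G C) ∧ (∀ S ∈ B, IsMaxStable G S) ∧
    (∀ u v, G.Adj u v → ∃ C ∈ A, u ∈ C ∧ v ∈ C) ∧
    (∀ u v, u ≠ v → ¬ G.Adj u v → ∃ S ∈ B, u ∈ S ∧ v ∈ S) ∧
    ∀ C ∈ A, ∀ S ∈ B, ∃ x, x ∈ C ∧ x ∈ S

/-- The ends of the 14 edges of `H`. -/
def ends : Fin 14 → Fin 9 × Fin 9 :=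
  ![(0, 3), (0, 4), (0, 5), (0, 7), (1, 4), (1, 7), (1, 8), (2, 3), (2, 6), (2, 7), (3, 8), (4, 6),
    (5, 6), (5, 8)]

/-- The edge `e` is incident to the vertex `v`. -/
def Inc (v : Fin 9) (e : Fin 14) : Prop := (ends e).1 = v ∨ (ends e).2 = v

instance (v : Fin 9) (e : Fin 14) : Decidable (Inc v e) := by unfold Inc; infer_instance

/-- The star of `v`. -/
def star (v : Fin 9) : Finset (Fin 14) := Finset.univ.filter (Inc v)

/-- The two edges are disjoint. -/
def Disj (e f : Fin 14) : Prop := ∀ v, ¬ (Inc v e ∧ Inc v f)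

instance (e f : Fin 14) : Decidable (Disj e f) := by unfold Disj; infer_instance

/-- The complement of the line graph of `H`. -/
def G : SimpleGraph (Fin 14) where
  Adj e f := e ≠ f ∧ Disj e f
  symm := ⟨fun _ _ h => ⟨h.1.symm, fun v hv => h.2 v hv.symm⟩⟩
  loopless := ⟨fun _ h => h.1 rfl⟩

theorem mem_star (v : Fin 9) (e : Fin 14) : e ∈ star v ↔ Inc v e := by simp [star]

theorem not_adj_iff (e f : Fin 14) (h : e ≠ f) : ¬ G.Adj e f ↔ ∃ v, Inc v e ∧ Inc v f := by
  show ¬ (e ≠ f ∧ Disj e f) ↔ _
  simp only [Disj, not_and, not_forall, not_not]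
  constructor
  · intro h1
    obtain ⟨v, hv, hv'⟩ := h1 h
    exact ⟨v, hv, hv'⟩
  · rintro ⟨v, hv, hv'⟩ _
    exact ⟨v, hv, hv'⟩

theorem helly : ∀ e f g : Fin 14, (∃ v, Inc v e ∧ Inc v f) → (∃ v, Inc v f ∧ Inc v g) →
    (∃ v, Inc v e ∧ Inc v g) → ∃ v, Inc v e ∧ Inc v f ∧ Inc v g := by
  decide +kernel

theorem inc_ends (v : Fin 9) (e : Fin 14) : Inc v e ↔ v = (ends e).1 ∨ v = (ends e).2 := by
  unfold Inc
  constructor
  · rintro (h | h)
    · exact Or.inl h.symm
    · exact Or.inr h.symm
  · rintro (h | h)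
    · exact Or.inl h.symm
    · exact Or.inr h.symm

theorem meet_of_indep {S : Finset (Fin 14)} (hS : G.IsIndepSet S) {e f : Fin 14} (he : e ∈ S)
    (hf : f ∈ S) : ∃ v, Inc v e ∧ Inc v f := by
  by_cases hef : e = f
  · subst hef
    exact ⟨(ends e).1, Or.inl rfl, Or.inl rfl⟩
  · exact (not_adj_iff e f hef).1 (hS (by exact_mod_cast he) (by exact_mod_cast hf) hef)

theorem subset_star {S : Finset (Fin 14)} (hS : G.IsIndepSet S) : ∃ v, S ⊆ star v := by
  by_cases hne : S.Nonempty
  · obtain ⟨e, he⟩ := hne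
    by_contra hcon
    push Not at hcon
    have h1 := hcon (ends e).1
    have h2 := hcon (ends e).2
    rw [Finset.not_subset] at h1 h2
    obtain ⟨f, hf, hf'⟩ := h1
    obtain ⟨g, hg, hg'⟩ := h2
    rw [mem_star] at hf' hg'
    obtain ⟨v, hv1, hv2, hv3⟩ := helly e f g (meet_of_indep hS he hf) (meet_of_indep hS hf hg)
      (meet_of_indep hS he hg)
    rcases (inc_ends v e).1 hv1 with h | h
    · exact hf' (h ▸ hv2)
    · exact hg' (h ▸ hv3)
  · rw [Finset.not_nonempty_iff_eq_empty] at hne
    exact ⟨0, by rw [hne]; exact Finset.empty_subset _⟩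

theorem star_indep (v : Fin 9) : G.IsIndepSet (star v : Finset (Fin 14)) := by
  intro e he f hf hef
  have he' : Inc v e := (mem_star v e).1 (by exact_mod_cast he)
  have hf' : Inc v f := (mem_star v f).1 (by exact_mod_cast hf)
  exact (not_adj_iff e f hef).2 ⟨v, he', hf'⟩

theorem star_sub : ∀ u v : Fin 9, star u ⊆ star v → u = v := by
  decide +kernel

theorem isMaxStable_iff (S : Finset (Fin 14)) : IsMaxStable G S ↔ ∃ v, S = star v := by
  constructor
  · intro h
    obtain ⟨v, hv⟩ := subset_star h.prop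
    exact ⟨v, le_antisymm hv (h.le_of_ge (star_indep v) hv)⟩
  · rintro ⟨v, rfl⟩
    refine ⟨star_indep v, ?_⟩
    intro T hT hle
    obtain ⟨u, hu⟩ := subset_star hT
    have h1 : v = u := star_sub v u (hle.trans hu)
    rw [h1]
    exact hu

/-! ### Weights -/

/-- Integer weights; stars have total weight 188. -/
def wt : List ℕ := [37, 77, 52, 22, 51, 110, 27, 65, 67, 56, 86, 60, 61, 75]

/-- Weight of a choice. -/
def val : List ℕ → List Bool → ℕ
  | w :: ws, b :: bs => (if b then w else 0) + val ws bs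
  | _, _ => 0

/-- All choices of total weight `t`. -/
def sols : List ℕ → ℕ → List (List Bool)
  | [], t => if t = 0 then [[]] else []
  | w :: ws, t => (sols ws t).map (fun l => false :: l) ++
      (if w ≤ t then (sols ws (t - w)).map (fun l => true :: l) else [])

theorem mem_sols : ∀ (ws : List ℕ) (t : ℕ) (bs : List Bool), bs.length = ws.length →
    val ws bs = t → bs ∈ sols ws t
  | [], t, bs, hl, hv => by
    have : bs = [] := List.length_eq_zero_iff.1 (by simpa using hl)
    subst this
    simp [val] at hv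
    simp [sols, ← hv]
  | w :: ws, t, [], hl, hv => by simp at hl
  | w :: ws, t, b :: bs, hl, hv => by
    have hl' : bs.length = ws.length := by simpa using hl
    cases b
    · have hv' : val ws bs = t := by simpa [val] using hv
      have := mem_sols ws t bs hl' hv'
      simp [sols, this]
    · have hv' : w + val ws bs = t := by simpa [val] using hv
      have hle : w ≤ t := by omega
      have := mem_sols ws (t - w) bs hl' (by omega)
      simp [sols, hle, this]

/-- Indicator lists of the stars. -/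
def starList (v : Fin 9) : List Bool := List.ofFn fun e : Fin 14 => decide (Inc v e)

theorem sols_eq : ∀ l ∈ sols wt 188, ∃ v : Fin 9, l = starList v := by
  decide +kernel

theorem val_ofFn (S : Finset (Fin 14)) :
    val wt (List.ofFn fun e : Fin 14 => decide (e ∈ S)) = ∑ e ∈ S, wt[(e : ℕ)]'(e.isLt) := by
  have h1 : ∑ e ∈ S, wt[(e : ℕ)]'(e.isLt) =
      ∑ e : Fin 14, if e ∈ S then wt[(e : ℕ)]'(e.isLt) else 0 := by
    rw [Finset.sum_ite_mem, Finset.univ_inter]
  rw [h1]
  simp only [Fin.sum_univ_succ, Fin.sum_univ_zero, List.ofFn_succ, List.ofFn_zero, wt, val,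
    decide_eq_true_eq]
  simp

theorem star_sum (v : Fin 9) : ∑ e ∈ star v, wt[(e : ℕ)]'(e.isLt) = 188 := by
  revert v
  decide +kernel

theorem weight_iff (S : Finset (Fin 14)) :
    (∑ e ∈ S, wt[(e : ℕ)]'(e.isLt) = 188) ↔ ∃ v, S = star v := by
  constructor
  · intro h
    have h1 := mem_sols wt 188 (List.ofFn fun e : Fin 14 => decide (e ∈ S)) (by simp [wt])
      ((val_ofFn S).trans h)
    obtain ⟨v, hv⟩ := sols_eq _ h1
    refine ⟨v, ?_⟩
    unfold starList at hv
    have h2 := List.ofFn_injective hv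
    ext e
    have h3 := congrFun h2 e
    rw [mem_star]
    simpa using h3
  · rintro ⟨v, rfl⟩
    exact star_sum v

theorem equistable_G : Equistable G := by
  refine ⟨fun e => (wt[(e : ℕ)]'(e.isLt) : ℝ) / 188, fun e => by positivity, fun S => ?_⟩
  rw [isMaxStable_iff, ← weight_iff, ← Finset.sum_div, div_eq_one_iff_eq (by norm_num)]
  constructor
  · intro h
    exact_mod_cast congrArg (fun n : ℕ => (n : ℝ)) h
  · intro h
    exact_mod_cast h

/-! ### `G` is not weakly CIS -/

theorem two_in_star : ∀ v : Fin 9, ∃ e f : Fin 14, e ≠ f ∧ Inc v e ∧ Inc v f ∧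
    ∀ u : Fin 9, Inc u e → Inc u f → u = v := by
  decide +kernel

theorem adj_exists : ∃ e f : Fin 14, e ≠ f ∧ Disj e f := by
  decide +kernel

theorem ends_ne : ∀ e : Fin 14, (Finset.univ.filter (fun v => Inc v e)).card = 2 := by
  decide +kernel

theorem not_weaklyCIS_G : ¬ WeaklyCIS G := by
  rintro ⟨A, B, hA, hB, hcA, hcB, hx⟩
  have hstar : ∀ v, star v ∈ B := by
    intro v
    obtain ⟨e, f, hef, he, hf, huniq⟩ := two_in_star v
    obtain ⟨S, hS, heS, hfS⟩ := hcB e f hef ((not_adj_iff e f hef).2 ⟨v, he, hf⟩)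
    obtain ⟨u, hu⟩ := (isMaxStable_iff S).1 (hB S hS)
    rw [hu, mem_star] at heS hfS
    rw [← huniq u heS hfS, ← hu]
    exact hS
  obtain ⟨e, f, hef, hd⟩ := adj_exists
  obtain ⟨C, hC, -, -⟩ := hcA e f ⟨hef, hd⟩
  have hcl : G.IsClique (C : Finset (Fin 14)) := (hA C hC).prop
  have hone : ∀ v : Fin 9, (C.filter (fun e => Inc v e)).card = 1 := by
    intro v
    obtain ⟨x, hxC, hxS⟩ := hx C hC (star v) (hstar v)
    rw [mem_star] at hxS
    rw [Finset.card_eq_one]
    refine ⟨x, ?_⟩
    ext y
    rw [Finset.mem_filter, Finset.mem_singleton]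
    constructor
    · rintro ⟨hy, hvy⟩
      by_contra hne
      have := hcl (by exact_mod_cast hy) (by exact_mod_cast hxC) hne
      exact this.2 v ⟨hvy, hxS⟩
    · rintro rfl
      exact ⟨hxC, hxS⟩
  have hcount : ∑ v : Fin 9, (C.filter (fun e => Inc v e)).card = 2 * C.card := by
    have h1 : ∀ v : Fin 9, (C.filter (fun e => Inc v e)).card = ∑ e ∈ C, if Inc v e then 1 else 0 := by
      intro v
      rw [Finset.card_filter]
    simp_rw [h1]
    rw [Finset.sum_comm]
    have h2 : ∀ e ∈ C, (∑ v : Fin 9, if Inc v e then 1 else 0) = 2 := by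
      intro e _
      rw [← Finset.card_filter]
      exact ends_ne e
    rw [Finset.sum_congr rfl h2, Finset.sum_const, smul_eq_mul, mul_comm]
  simp_rw [hone] at hcount
  simp at hcount
  omega

/-- The negated form of Q1: some finite simple graph is equistable but not weakly CIS. -/
theorem result : ∃ (V : Type) (_ : Fintype V) (G : SimpleGraph V), Equistable G ∧ ¬ WeaklyCIS G :=
  ⟨Fin 14, inferInstance, G, equistable_G, not_weaklyCIS_G⟩

end Pool.Agent.Results.MP_59918e_co.EquistableNotWeaklyCIS
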